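import Mathlib
import Pool.Agent.H737R3.Points

set_option autoImplicit false

namespace Pool.Agent.Results.MP_6bebef_ag.FatPoints

open MvPolynomial Filter Topology Pool.Agent.H737R3

/-- **The Chudnovsky–Demailly bound for fat points.** Let `K` be a field (of any characteristic,
algebraically closed or not), `N ≥ 1` and let `Z` be a nonzero fat point scheme supported at
finitely many points of the projective space of dimension `N` over `K`. The Waldschmidt constant
`c = lim α(I(rZ))/r` exists, and `c ≥ (α(I(mZ)) + N - 1)/(m + N - 1)` for every `m ≥ 1`. -/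
theorem result (K : Type*) [Field K] (N : ℕ) (hN : 1 ≤ N) (Z : PP K N →₀ ℕ) (hZ : Z ≠ 0) :
    ∃ c : ℝ, Tendsto (fun r : ℕ => (alpha (fatIdeal (r • Z)) : ℝ) / r) atTop (𝓝 c) ∧
      ∀ m : ℕ, 1 ≤ m → ((alpha (fatIdeal (m • Z)) : ℝ) + N - 1) / ((m : ℝ) + N - 1) ≤ c := by
  have hI : ∀ r : ℕ, 1 ≤ r → fatIdeal (r • Z) = wIdeal Z.support (fun p => r * Z p) := by
    intro r hr
    have hs : (r • Z).support = Z.support := by
      ext p
      simp only [Finsupp.mem_support_iff, Finsupp.smul_apply, smul_eq_mul]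
      constructor
      · exact fun h => right_ne_zero_of_mul h
      · exact fun h => mul_ne_zero (by omega) h
    unfold fatIdeal wIdeal
    rw [hs]
    rfl
  obtain ⟨c, hc⟩ := exists_limit hN Z.support Z
  have hev : (fun r : ℕ => (alpha (fatIdeal (r • Z)) : ℝ) / r) =ᶠ[atTop]
      (fun r : ℕ => (alpha (wIdeal Z.support (fun p => r * Z p)) : ℝ) / r) := by
    filter_upwards [eventually_ge_atTop 1] with r hr
    rw [hI r hr]
  refine ⟨c, (tendsto_congr' hev).2 hc, ?_⟩
  intro m hm
  rw [hI m hm]
  obtain ⟨q, hq⟩ := Finsupp.support_nonempty_iff.2 hZ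
  refine ge_of_tendsto hc ?_
  filter_upwards [eventually_ge_atTop 1] with r hr
  exact real_of_nat hN hm hr (demailly_w hN Z.support Z
    ⟨q, hq, Nat.one_le_iff_ne_zero.2 (Finsupp.mem_support_iff.1 hq)⟩ m r hm)

end Pool.Agent.Results.MP_6bebef_ag.FatPoints
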